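import Mathlib

/-!
# Vertex k-domination-critical graphs: the order bound fails for every k ≥ 2 and ℓ ≥ 3

For every `k ≥ 2` and `ℓ ≥ 3` the circular ladder (`ℓ` even) or the Möbius ladder (`ℓ` odd) on
`4k(ℓ-1)` vertices is connected and `(γ_k, ℓ)`-critical, and every vertex of it has `k`-degree
`4k - 1`.  So its order is `(δ_k + 1)(γ_k - 1)`, one less than the conjectured lower bound.
-/

set_option autoImplicit false

namespace Pool.Agent.Results.MP_940262_co.LadderCounterexamples

open SimpleGraph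

/-- `d_G(u,v) ≤ k`: there is a walk from `u` to `v` of length at most `k`. -/
def Within {V : Type} (G : SimpleGraph V) (k : ℕ) (u v : V) : Prop :=
  ∃ w : G.Walk u v, w.length ≤ k

/-- `D` is a `k`-dominating set of `G`. -/
def IsKDominating {V : Type} (G : SimpleGraph V) (k : ℕ) (D : Finset V) : Prop :=
  ∀ v : V, ∃ d ∈ D, Within G k d v

/-- The `k`-domination number `γ_k(G)` (for a finite graph `G`). -/
noncomputable def domNumber {V : Type} (G : SimpleGraph V) (k : ℕ) : ℕ :=
  sInf {c | ∃ D : Finset V, IsKDominating G k D ∧ D.card = c}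

/-- The set `N_k(v)` of the vertices other than `v` at distance at most `k` from `v`. -/
def kNbhd {V : Type} (G : SimpleGraph V) (k : ℕ) (v : V) : Set V :=
  {u | u ≠ v ∧ Within G k v u}

/-- The minimum `k`-degree `δ_k(G)`. -/
noncomputable def minKDegree {V : Type} (G : SimpleGraph V) (k : ℕ) : ℕ :=
  sInf (Set.range fun v : V => (kNbhd G k v).ncard)

/-- `G` is `γ_k`-critical: deleting any vertex lowers the `k`-domination number. -/
def IsKCritical {V : Type} (G : SimpleGraph V) (k : ℕ) : Prop :=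
  ∀ v : V, domNumber (G.induce {u | u ≠ v}) k < domNumber G k

/-! ### The infinite ladder and its quotients -/

abbrev L := ℤ × ZMod 2

/-- The length of an element of the infinite ladder. -/
def nrm (p : L) : ℕ := p.1.natAbs + (if p.2 = 0 then 0 else 1)

theorem z2_cases (a : ZMod 2) : a = 0 ∨ a = 1 := by revert a; decide

theorem z2_other (y z : ZMod 2) (h : ¬ y = 1 + z) : y = z := by revert y z; decide

theorem z2_add (a b : ZMod 2) :
    (if a + b = 0 then 0 else 1) ≤ (if a = 0 then 0 else 1) + (if b = 0 then 0 else (1 : ℕ)) := by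
  revert a b; decide

theorem nrm_add (p q : L) : nrm (p + q) ≤ nrm p + nrm q := by
  unfold nrm
  have h1 := Int.natAbs_add_le p.1 q.1
  have h2 := z2_add p.2 q.2
  simp only [Prod.fst_add, Prod.snd_add]
  omega

theorem nrm_neg (p : L) : nrm (-p) = nrm p := by
  unfold nrm
  simp

theorem nrm_sub_comm (p q : L) : nrm (p - q) = nrm (q - p) := by
  rw [← nrm_neg, neg_sub]

theorem nrm_tri (p q r : L) : nrm (r - p) ≤ nrm (r - q) + nrm (q - p) := by
  have := nrm_add (r - q) (q - p)
  rwa [sub_add_sub_cancel] at this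

/-- The deck translation. -/
def lam (m : ℕ) (ε : ZMod 2) (i : ℤ) : L := (i * m, i * ε)

/-- The projection of the infinite ladder onto the finite one. -/
def pr (m : ℕ) (ε : ZMod 2) (p : L) : ZMod m × ZMod 2 :=
  ((p.1 : ZMod m), p.2 - ((p.1 / (m : ℤ) : ℤ) : ZMod 2) * ε)

section
variable {m : ℕ} [NeZero m] {ε : ZMod 2}

theorem m_ne : (m : ℤ) ≠ 0 := by
  have := NeZero.ne m
  exact_mod_cast this

theorem pr_add_lam (p : L) (i : ℤ) : pr m ε (p + lam m ε i) = pr m ε p := by
  unfold pr lam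
  have h : (p.1 + i * (m : ℤ)) / (m : ℤ) = p.1 / (m : ℤ) + i := Int.add_mul_ediv_right _ _ m_ne
  simp only [Prod.fst_add, Prod.snd_add, h]
  ext
  · simp
  · push_cast
    ring

theorem pr_eq {p q : L} (h : pr m ε p = pr m ε q) : ∃ i : ℤ, q = p + lam m ε i := by
  unfold pr at h
  rw [Prod.mk.injEq] at h
  obtain ⟨h1, h2⟩ := h
  rw [ZMod.intCast_eq_intCast_iff_dvd_sub] at h1
  obtain ⟨i, hi⟩ := h1
  refine ⟨i, ?_⟩
  have hq : q.1 = p.1 + i * (m : ℤ) := by linarith [mul_comm (m : ℤ) i]
  have hd : q.1 / (m : ℤ) = p.1 / (m : ℤ) + i := by rw [hq]; exact Int.add_mul_ediv_right _ _ m_ne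
  rw [hd] at h2
  unfold lam
  ext
  · simpa using hq
  · simp only [Prod.snd_add]
    push_cast at h2
    linear_combination -h2

theorem pr_surj (a : ZMod m × ZMod 2) : ∃ p : L, pr m ε p = a := by
  refine ⟨((a.1.val : ℤ), a.2 + (((a.1.val : ℤ) / (m : ℤ) : ℤ) : ZMod 2) * ε), ?_⟩
  unfold pr
  ext
  · simp
  · simp

end

/-- The finite ladder: the quotient of the infinite one by the translation `(m, ε)`. It is the
circular ladder for `ε = 0` and the Möbius ladder for `ε = 1`. -/
def lad (m : ℕ) (ε : ZMod 2) : SimpleGraph (ZMod m × ZMod 2) where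
  Adj a b := a ≠ b ∧ ∃ p q : L, pr m ε p = a ∧ pr m ε q = b ∧ nrm (q - p) = 1
  symm := ⟨by
    rintro a b ⟨hab, p, q, hp, hq, h⟩
    exact ⟨hab.symm, q, p, hq, hp, by rw [nrm_sub_comm]; exact h⟩⟩
  loopless := ⟨by
    rintro a ⟨h, -⟩
    exact h rfl⟩

section
variable {m : ℕ} [NeZero m] {ε : ZMod 2}

theorem lift {a b : ZMod m × ZMod 2} (w : (lad m ε).Walk a b) :
    ∀ p : L, pr m ε p = a → ∃ q, pr m ε q = b ∧ nrm (q - p) ≤ w.length := by
  induction w with
  | nil => intro p hp; exact ⟨p, hp, by simp [nrm]⟩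
  | cons h w ih =>
    intro p hp
    obtain ⟨-, p', q', hp', hq', h1⟩ := h
    obtain ⟨i, hi⟩ := pr_eq (hp'.trans hp.symm)
    obtain ⟨q, hq, hn⟩ := ih (q' + lam m ε i) (by rw [pr_add_lam, hq'])
    refine ⟨q, hq, ?_⟩
    have h2 := nrm_tri p (q' + lam m ε i) q
    have h3 : q' + lam m ε i - p = q' - p' := by rw [hi]; abel
    rw [h3, h1] at h2
    change nrm (q - p) ≤ w.length + 1
    omega

theorem step_exists (d : L) (n : ℕ) (h : nrm d = n + 1) :
    ∃ e : L, nrm e = 1 ∧ nrm (d - e) = n := by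
  by_cases hd : d.2 = 0
  · by_cases h0 : 0 < d.1
    · refine ⟨(1, 0), by decide, ?_⟩
      unfold nrm at *
      simp only [Prod.fst_sub, Prod.snd_sub, hd, sub_zero, if_true] at *
      omega
    · refine ⟨(-1, 0), by decide, ?_⟩
      unfold nrm at *
      simp only [Prod.fst_sub, Prod.snd_sub, hd, sub_zero, if_true] at *
      omega
  · refine ⟨(0, 1), by decide, ?_⟩
    have : d.2 - 1 = 0 := by
      revert hd; generalize d.2 = x; revert x; decide
    unfold nrm at *
    simp only [Prod.fst_sub, Prod.snd_sub, this, hd, sub_zero, if_true, if_false] at *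
    omega

omit [NeZero m] in
theorem proj (n : ℕ) : ∀ p q : L, nrm (q - p) = n → Within (lad m ε) n (pr m ε p) (pr m ε q) := by
  induction n with
  | zero =>
    intro p q h
    have : q = p := by
      unfold nrm at h
      have h1 : (q - p).1 = 0 := by
        have : (q - p).1.natAbs = 0 := by omega
        simpa using this
      have h2 : (q - p).2 = 0 := by
        by_contra h3
        rw [if_neg h3] at h
        omega
      have : q - p = 0 := Prod.ext h1 h2
      exact sub_eq_zero.mp this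
    rw [this]
    exact ⟨Walk.nil, by simp⟩
  | succ n ih =>
    intro p q h
    obtain ⟨e, he, hn⟩ := step_exists _ n h
    have hq : q - (p + e) = q - p - e := by abel
    obtain ⟨w, hw⟩ := ih (p + e) q (by rw [hq]; exact hn)
    by_cases heq : pr m ε p = pr m ε (p + e)
    · rw [heq]
      exact ⟨w, by omega⟩
    · refine ⟨Walk.cons ⟨heq, p, p + e, rfl, rfl, by rw [add_sub_cancel_left]; exact he⟩ w, ?_⟩
      change w.length + 1 ≤ n + 1
      omega

omit [NeZero m] in
theorem within_of_nrm {k : ℕ} {p q : L} (h : nrm (q - p) ≤ k) :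
    Within (lad m ε) k (pr m ε p) (pr m ε q) := by
  obtain ⟨w, hw⟩ := proj (m := m) (ε := ε) _ p q rfl
  exact ⟨w, hw.trans h⟩

theorem within_iff {k : ℕ} {p : L} {b : ZMod m × ZMod 2} :
    Within (lad m ε) k (pr m ε p) b ↔ ∃ q, pr m ε q = b ∧ nrm (q - p) ≤ k := by
  constructor
  · rintro ⟨w, hw⟩
    obtain ⟨q, hq, hn⟩ := lift w p rfl
    exact ⟨q, hq, hn.trans hw⟩
  · rintro ⟨q, rfl, hn⟩
    exact within_of_nrm hn

theorem within_symm {V : Type} {G : SimpleGraph V} {k : ℕ} {a b : V} (h : Within G k a b) :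
    Within G k b a := by
  obtain ⟨w, hw⟩ := h
  exact ⟨w.reverse, by rw [Walk.length_reverse]; exact hw⟩

theorem lad_connected : (lad m ε).Connected := by
  have : Nonempty (ZMod m × ZMod 2) := ⟨0⟩
  refine Connected.mk ?_
  intro a b
  obtain ⟨p, rfl⟩ := pr_surj (ε := ε) a
  obtain ⟨q, rfl⟩ := pr_surj (ε := ε) b
  obtain ⟨w, -⟩ := proj (m := m) (ε := ε) _ p q rfl
  exact w.reachable

end

/-! ### Balls -/

/-- The ball of radius `k` about the origin of the infinite ladder. -/
noncomputable def box (k : ℕ) : Finset L :=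
  (Finset.Icc (-(k : ℤ)) k ×ˢ {0}) ∪ (Finset.Icc (-(k : ℤ) + 1) (k - 1) ×ˢ {1})

theorem mem_box {k : ℕ} {d : L} : d ∈ box k ↔ nrm d ≤ k := by
  unfold box nrm
  obtain ⟨x, y⟩ := d
  have hy : y = 0 ∨ y = 1 := by revert y; decide
  rcases hy with rfl | rfl
  · simp only [Finset.mem_union, Finset.mem_product, Finset.mem_Icc, Finset.mem_singleton,
      if_true, and_true]
    have h01 : ¬ ((0 : ZMod 2) = 1) := by decide
    simp only [h01, and_false, or_false]
    omega
  · simp only [Finset.mem_union, Finset.mem_product, Finset.mem_Icc, Finset.mem_singleton,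
      and_true]
    have h01 : ¬ ((1 : ZMod 2) = 0) := by decide
    simp only [h01, and_false, false_or, if_false]
    omega

theorem card_box {k : ℕ} (hk : 1 ≤ k) : (box k).card = 4 * k := by
  unfold box
  rw [Finset.card_union_of_disjoint]
  · rw [Finset.card_product, Finset.card_product]
    simp only [Int.card_Icc, Finset.card_singleton]
    omega
  · rw [Finset.disjoint_left]
    rintro ⟨x, y⟩ h1 h2
    simp only [Finset.mem_product, Finset.mem_singleton] at h1 h2
    have := h1.2.symm.trans h2.2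
    revert this
    decide

section
variable {m : ℕ} [NeZero m] {ε : ZMod 2} {k : ℕ}

/-- The ball of radius `k` about `pr p`, as a finset. -/
noncomputable def ball (m : ℕ) (ε : ZMod 2) (k : ℕ) (p : L) : Finset (ZMod m × ZMod 2) :=
  (box k).image fun d => pr m ε (p + d)

theorem mem_ball {p : L} {b : ZMod m × ZMod 2} :
    b ∈ ball m ε k p ↔ Within (lad m ε) k (pr m ε p) b := by
  rw [within_iff]
  unfold ball
  rw [Finset.mem_image]
  constructor
  · rintro ⟨d, hd, rfl⟩
    exact ⟨p + d, rfl, by rw [add_sub_cancel_left]; exact mem_box.mp hd⟩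
  · rintro ⟨q, rfl, hn⟩
    exact ⟨q - p, mem_box.mpr hn, by rw [add_sub_cancel]⟩

omit [NeZero m] in
theorem lam_small {i : ℤ} (h : (i * (m : ℤ)).natAbs < m) : i = 0 := by
  by_contra hi
  have h1 : 1 ≤ i.natAbs := Int.natAbs_pos.mpr hi
  rw [Int.natAbs_mul, Int.natAbs_natCast] at h
  nlinarith

theorem card_ball (hk : 1 ≤ k) (hm : 2 * k < m) (p : L) : (ball m ε k p).card = 4 * k := by
  unfold ball
  rw [Finset.card_image_of_injOn, card_box hk]
  intro d hd e he h
  have hd' := mem_box.mp (Finset.mem_coe.mp hd)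
  have he' := mem_box.mp (Finset.mem_coe.mp he)
  obtain ⟨i, hi⟩ := pr_eq h
  have h1 : e = d + lam m ε i := by
    have : p + e = p + (d + lam m ε i) := by rw [hi]; abel
    exact add_left_cancel this
  have h2 : e.1 = d.1 + i * m := by rw [h1]; rfl
  have h3 : i = 0 := by
    apply lam_small (m := m)
    unfold nrm at hd' he'
    omega
  rw [h1, h3]
  unfold lam
  simp

end

/-! ### The lower bound -/

section
variable {m : ℕ} [NeZero m] {ε : ZMod 2} {k : ℕ}

/-- All vertices within distance `k` of `a`. -/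
noncomputable def bl (m : ℕ) [NeZero m] (ε : ZMod 2) (k : ℕ) (a : ZMod m × ZMod 2) :
    Finset (ZMod m × ZMod 2) := by
  classical exact Finset.univ.filter fun b => Within (lad m ε) k a b

theorem mem_bl {a b : ZMod m × ZMod 2} : b ∈ bl m ε k a ↔ Within (lad m ε) k a b := by
  unfold bl
  simp

theorem card_bl (hk : 1 ≤ k) (hm : 2 * k < m) (a : ZMod m × ZMod 2) :
    (bl m ε k a).card = 4 * k := by
  obtain ⟨p, rfl⟩ := pr_surj (ε := ε) a
  rw [← card_ball (ε := ε) hk hm p]
  congr 1
  ext b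
  rw [mem_bl, mem_ball]

theorem disj_of_card {j : ℕ} (hk : 1 ≤ k) (hm : m = 2 * k * j) (hj : 2 ≤ j)
    {D : Finset (ZMod m × ZMod 2)} (hD : IsKDominating (lad m ε) k D) (hc : D.card ≤ j)
    {a b c : ZMod m × ZMod 2} (ha : a ∈ D) (hb : b ∈ D) (hab : a ≠ b)
    (hac : Within (lad m ε) k a c) (hbc : Within (lad m ε) k b c) : False := by
  classical
  have hm2 : 2 * k < m := by rw [hm]; nlinarith
  have hcard : (Finset.univ : Finset (ZMod m × ZMod 2)).card = 4 * k * j := by
    rw [Finset.card_univ, Fintype.card_prod, ZMod.card, ZMod.card, hm]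
    ring
  have hcov : (Finset.univ : Finset (ZMod m × ZMod 2)) ⊆
      bl m ε k a ∪ (D.erase a).biUnion (bl m ε k) := by
    intro v _
    obtain ⟨d, hd, hw⟩ := hD v
    rw [Finset.mem_union, Finset.mem_biUnion]
    by_cases hda : d = a
    · left; rw [mem_bl, ← hda]; exact hw
    · right; exact ⟨d, Finset.mem_erase.mpr ⟨hda, hd⟩, mem_bl.mpr hw⟩
  have h1 := Finset.card_le_card hcov
  have h2 := Finset.card_union_add_card_inter (bl m ε k a) ((D.erase a).biUnion (bl m ε k))
  have h3 : 1 ≤ (bl m ε k a ∩ (D.erase a).biUnion (bl m ε k)).card := by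
    rw [Nat.one_le_iff_ne_zero, Finset.card_ne_zero]
    refine ⟨c, ?_⟩
    rw [Finset.mem_inter, Finset.mem_biUnion]
    exact ⟨mem_bl.mpr hac, b, Finset.mem_erase.mpr ⟨hab.symm, hb⟩, mem_bl.mpr hbc⟩
  have h4 : ((D.erase a).biUnion (bl m ε k)).card ≤ (D.erase a).card * (4 * k) :=
    Finset.card_biUnion_le_card_mul _ _ _ fun x _ => (card_bl hk hm2 x).le
  rw [Finset.card_erase_of_mem ha] at h4
  rw [hcard] at h1
  rw [card_bl hk hm2] at h2
  have h5 : 1 ≤ D.card := Finset.card_pos.mpr ⟨a, ha⟩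
  obtain ⟨t, ht⟩ : ∃ t, D.card = t + 1 := ⟨D.card - 1, by omega⟩
  rw [ht] at h4 hc
  have h6 : (t + 1 - 1) * (4 * k) ≤ (j - 1) * (4 * k) :=
    Nat.mul_le_mul_right _ (by omega)
  obtain ⟨s, rfl⟩ : ∃ s, j = s + 1 := ⟨j - 1, by omega⟩
  have h7 : 4 * k * (s + 1) = (s + 1 - 1) * (4 * k) + 4 * k := by
    rw [Nat.add_sub_cancel]; ring
  omega

theorem propagate {j : ℕ} (hk : 1 ≤ k) (hm : m = 2 * k * j) (hj : 2 ≤ j)
    {D : Finset (ZMod m × ZMod 2)} (hD : IsKDominating (lad m ε) k D) (hc : D.card ≤ j)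
    (p : L) (hp : pr m ε p ∈ D) : pr m ε (p + (2 * (k : ℤ), 1)) ∈ D := by
  have hm2 : 4 * k ≤ m := by rw [hm]; nlinarith
  obtain ⟨d, hd, hw⟩ := hD (pr m ε (p + ((k : ℤ), 1)))
  obtain ⟨q, rfl, hq⟩ := within_iff.mp (within_symm hw)
  obtain ⟨c, y, hcy⟩ : ∃ (c : ℤ) (y : ZMod 2), q = p + (c, y) :=
    ⟨(q - p).1, (q - p).2, (add_sub_cancel p q).symm⟩
  have hqn : nrm (c - (k : ℤ), y - 1) ≤ k := by
    have : q - (p + ((k : ℤ), 1)) = (c - (k : ℤ), y - 1) := by
      rw [hcy]
      have : p + (c, y) - (p + ((k : ℤ), (1 : ZMod 2))) = (c, y) - ((k : ℤ), (1 : ZMod 2)) := by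
        abel
      rw [this]
      rfl
    rwa [this] at hq
  have hne : ∀ i : ℤ, (c, y) = lam m ε i → 0 ≤ c → c < m → c = 0 ∧ y = 0 := by
    intro i hi h0 h1
    have h2 : c = i * m := congrArg Prod.fst hi
    have h3 : y = i * ε := congrArg Prod.snd hi
    have h4 : i = 0 := lam_small (m := m) (by omega)
    rw [h4] at h2 h3
    simp only [zero_mul, Int.cast_zero] at h2 h3
    exact ⟨h2, h3⟩
  have hneq : ∀ (h : pr m ε p = pr m ε q), ∃ i : ℤ, (c, y) = lam m ε i := by
    intro h
    obtain ⟨i, hi⟩ := pr_eq h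
    refine ⟨i, ?_⟩
    rw [hcy] at hi
    exact add_left_cancel hi
  rcases z2_cases y with rfl | rfl
  · -- the centre lies on the same side as `p`
    exfalso
    have h01 : ¬ ((0 : ZMod 2) - 1 = 0) := by decide
    unfold nrm at hqn
    simp only [h01, if_false] at hqn
    have hne' : pr m ε p ≠ pr m ε q := by
      intro h
      obtain ⟨i, hi⟩ := hneq h
      have := (hne i hi (by omega) (by omega)).1
      omega
    refine disj_of_card hk hm hj hD hc hp hd hne' (c := pr m ε (p + (min c k, 0))) ?_ ?_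
    · apply within_of_nrm
      rw [add_sub_cancel_left]
      unfold nrm
      simp only [if_true]
      omega
    · apply within_of_nrm
      have : p + (min c (k : ℤ), (0 : ZMod 2)) - q = (min c (k : ℤ) - c, 0) := by
        rw [hcy, add_sub_add_left_eq_sub]
        ext <;> simp
      rw [this]
      unfold nrm
      simp only [if_true]
      omega
  · have h11 : (1 : ZMod 2) - 1 = 0 := by decide
    unfold nrm at hqn
    simp only [h11, if_true] at hqn
    by_cases hc2 : c = 2 * (k : ℤ)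
    · rw [hcy, hc2] at hd
      exact hd
    exfalso
    have hne' : pr m ε p ≠ pr m ε q := by
      intro h
      obtain ⟨i, hi⟩ := hneq h
      have := (hne i hi (by omega) (by omega)).2
      revert this
      decide
    have h10 : ¬ ((1 : ZMod 2) = 0) := by decide
    refine disj_of_card hk hm hj hD hc hp hd hne' (c := pr m ε (p + (min c (k - 1), 1))) ?_ ?_
    · apply within_of_nrm
      rw [add_sub_cancel_left]
      unfold nrm
      simp only [h10, if_false]
      omega
    · apply within_of_nrm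
      have : p + (min c ((k : ℤ) - 1), (1 : ZMod 2)) - q = (min c ((k : ℤ) - 1) - c, 0) := by
        rw [hcy, add_sub_add_left_eq_sub]
        ext <;> simp
      rw [this]
      unfold nrm
      simp only [if_true]
      omega

theorem no_small_dom {j : ℕ} (hk : 1 ≤ k) (hm : m = 2 * k * j) (hj : 2 ≤ j)
    (hε : ε = (j : ZMod 2) + 1) {D : Finset (ZMod m × ZMod 2)}
    (hD : IsKDominating (lad m ε) k D) : j + 1 ≤ D.card := by
  by_contra hcon
  have hc : D.card ≤ j := by omega
  obtain ⟨a, ha, -⟩ := hD 0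
  obtain ⟨p, rfl⟩ := pr_surj (ε := ε) a
  have hit : ∀ i : ℕ, pr m ε (p + (2 * (k : ℤ) * i, (i : ZMod 2))) ∈ D := by
    intro i
    induction i with
    | zero =>
      have h0 : p + (2 * (k : ℤ) * ((0 : ℕ) : ℤ), ((0 : ℕ) : ZMod 2)) = p := by
        ext <;> simp
      rw [h0]
      exact ha
    | succ i ih =>
      have := propagate hk hm hj hD hc _ ih
      have heq : p + (2 * (k : ℤ) * i, (i : ZMod 2)) + (2 * (k : ℤ), 1) =
          p + (2 * (k : ℤ) * ((i + 1 : ℕ) : ℤ), ((i + 1 : ℕ) : ZMod 2)) := by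
        rw [add_assoc]
        congr 1
        ext
        · simp only [Prod.fst_add]; push_cast; ring
        · simp only [Prod.snd_add]; push_cast; ring
      rwa [heq] at this
  have hj' := hit j
  have heq : p + (2 * (k : ℤ) * (j : ℤ), (j : ZMod 2)) = p + (0, 1) + lam m ε 1 := by
    rw [add_assoc]
    congr 1
    unfold lam
    ext
    · simp only [Prod.fst_add]; rw [hm]; push_cast; ring
    · simp only [Prod.snd_add]
      rw [hε]
      push_cast
      have h2 : (1 : ZMod 2) + 1 = 0 := by decide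
      linear_combination (-1 : ZMod 2) * h2
  rw [heq, pr_add_lam] at hj'
  have hne : pr m ε p ≠ pr m ε (p + (0, 1)) := by
    intro h
    obtain ⟨i, hi⟩ := pr_eq h
    have h1 : ((0 : ℤ), (1 : ZMod 2)) = lam m ε i := add_left_cancel hi
    have h2 : (0 : ℤ) = i * m := congrArg Prod.fst h1
    have h3 : (1 : ZMod 2) = i * ε := congrArg Prod.snd h1
    have h4 : i = 0 := by
      rcases mul_eq_zero.mp h2.symm with h | h
      · exact h
      · exact absurd h m_ne
    rw [h4] at h3
    simp at h3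
  refine disj_of_card hk hm hj hD hc ha hj' hne (c := pr m ε p) ?_ ?_
  · exact ⟨Walk.nil, by simp⟩
  · apply within_of_nrm
    have : p - (p + ((0 : ℤ), (1 : ZMod 2))) = -((0 : ℤ), (1 : ZMod 2)) := by abel
    rw [this, nrm_neg]
    have : nrm ((0 : ℤ), (1 : ZMod 2)) = 1 := by decide
    omega

end

/-! ### The upper bound -/

section
variable {m : ℕ} [NeZero m] {ε : ZMod 2} {k : ℕ}

/-- A set of `j` vertices that `k`-dominates every vertex but `pr p`. -/
noncomputable def almost (m : ℕ) (ε : ZMod 2) (k j : ℕ) (p : L) : Finset (ZMod m × ZMod 2) :=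
  (Finset.range j).image fun i : ℕ => pr m ε (p + ((k : ℤ) + 2 * k * (i : ℤ), 1 + (i : ZMod 2)))

omit [NeZero m] in
theorem card_almost (j : ℕ) (p : L) : (almost m ε k j p).card ≤ j := by
  unfold almost
  exact Finset.card_image_le.trans (by rw [Finset.card_range])

theorem almost_far {j : ℕ} (hk : 1 ≤ k) (hm : m = 2 * k * j) (hj : 2 ≤ j)
    (hε : ε = (j : ZMod 2) + 1) (p : L) {d : ZMod m × ZMod 2} (hd : d ∈ almost m ε k j p) :
    ¬ Within (lad m ε) k d (pr m ε p) := by
  intro hw
  unfold almost at hd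
  rw [Finset.mem_image] at hd
  obtain ⟨i, hi, rfl⟩ := hd
  rw [Finset.mem_range] at hi
  obtain ⟨q, hq, hn⟩ := within_iff.mp hw
  obtain ⟨t, ht⟩ := pr_eq hq.symm
  have h1 : q - (p + ((k : ℤ) + 2 * k * i, 1 + (i : ZMod 2))) =
      (t * m - (k + 2 * k * i), t * ε - (1 + (i : ZMod 2))) := by
    rw [ht, add_sub_add_left_eq_sub]
    rfl
  rw [h1] at hn
  have hxk : (t * (m : ℤ) - (k + 2 * k * i)) = k * (2 * (t * j - i) - 1) := by
    rw [hm]; push_cast; ring
  have hle : (t * (m : ℤ) - (k + 2 * k * i)).natAbs ≤ k := by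
    unfold nrm at hn
    omega
  rw [hxk, Int.natAbs_mul, Int.natAbs_natCast] at hle
  have hu : (2 * (t * (j : ℤ) - i) - 1).natAbs ≤ 1 := by
    by_contra hcon
    have : 2 ≤ (2 * (t * (j : ℤ) - i) - 1).natAbs := by omega
    nlinarith
  have hcases : t * (j : ℤ) - i = 0 ∨ t * (j : ℤ) - i = 1 := by omega
  have hkey : ∀ y : ZMod 2, y = 1 →
      ¬ nrm (t * (m : ℤ) - (k + 2 * k * i), y) ≤ k := by
    intro y hy hcon
    unfold nrm at hcon
    rw [hxk, Int.natAbs_mul, Int.natAbs_natCast, hy] at hcon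
    have h10 : ¬ ((1 : ZMod 2) = 0) := by decide
    simp only [h10, if_false] at hcon
    have hone : (2 * (t * (j : ℤ) - i) - 1).natAbs = 1 := by omega
    rw [hone] at hcon
    omega
  refine hkey _ ?_ hn
  have h2 : (1 : ZMod 2) + 1 = 0 := by decide
  have hjpos : (0 : ℤ) < j := by omega
  rcases hcases with h | h
  · -- `t * j = i`, so `t = 0` and `i = 0`
    have ht0 : t = 0 := by
      have h3 : t * (j : ℤ) < 1 * j := by
        have : (i : ℤ) < j := by exact_mod_cast hi
        linarith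
      have h4 : t < 1 := lt_of_mul_lt_mul_right h3 hjpos.le
      have h5 : 0 ≤ t * (j : ℤ) := by
        have : (0 : ℤ) ≤ i := by positivity
        linarith
      have h6 : 0 ≤ t := by
        by_contra hneg
        have : t ≤ -1 := by omega
        nlinarith
      omega
    have hi0 : i = 0 := by
      rw [ht0] at h
      omega
    rw [ht0, hi0]
    push_cast
    linear_combination (-1 : ZMod 2) * h2
  · -- `t * j = i + 1`, so `t = 1` and `i = j - 1`
    have ht1 : t = 1 := by
      have h3 : t * (j : ℤ) ≤ 1 * j := by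
        have : (i : ℤ) + 1 ≤ j := by exact_mod_cast hi
        linarith
      have h4 : t ≤ 1 := le_of_mul_le_mul_right h3 hjpos
      have h5 : 0 < t * (j : ℤ) := by
        have : (0 : ℤ) ≤ i := by positivity
        linarith
      have h6 : 0 < t := by
        by_contra hneg
        have : t ≤ 0 := by omega
        nlinarith
      omega
    have hij : j = i + 1 := by
      rw [ht1] at h
      omega
    rw [ht1, hε, hij]
    push_cast
    ring

theorem almost_near {j : ℕ} (hk : 1 ≤ k) (hm : m = 2 * k * j)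
    (p : L) {v : ZMod m × ZMod 2} (hv : v ≠ pr m ε p) :
    ∃ d ∈ almost m ε k j p, Within (lad m ε) k d v := by
  obtain ⟨q, rfl⟩ := pr_surj (ε := ε) v
  -- choose a representative with first coordinate difference in `[0, m)`
  obtain ⟨x, y, hx0, hxm, hxy⟩ : ∃ (x : ℤ) (y : ZMod 2), 0 ≤ x ∧ x < m ∧
      pr m ε q = pr m ε (p + (x, y)) := by
    have hmpos : (0 : ℤ) < m := by
      have := NeZero.pos m
      exact_mod_cast this
    refine ⟨(q.1 - p.1) % m, (q + lam m ε (-((q.1 - p.1) / m)) - p).2,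
      Int.emod_nonneg _ m_ne, Int.emod_lt_of_pos _ hmpos, ?_⟩
    rw [← pr_add_lam (m := m) (ε := ε) q (-((q.1 - p.1) / m))]
    congr 1
    have h1 := Int.emod_add_mul_ediv (q.1 - p.1) m
    unfold lam
    ext
    · simp only [Prod.fst_add]
      linarith
    · simp only [Prod.snd_add, Prod.snd_sub]
      ring
  rw [hxy] at hv ⊢
  have hkpos : (0 : ℤ) < 2 * k := by omega
  obtain ⟨i, r, hir, hr0, hr1⟩ : ∃ (i : ℤ) (r : ℤ), x = 2 * k * i + r ∧ 0 ≤ r ∧ r < 2 * k :=
    ⟨x / (2 * k), x % (2 * k), by have := Int.emod_add_mul_ediv x (2 * k); linarith,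
      Int.emod_nonneg _ hkpos.ne', Int.emod_lt_of_pos _ hkpos⟩
  have hi0 : 0 ≤ i := by
    by_contra hneg
    have : i ≤ -1 := by omega
    nlinarith
  have hij : i < j := by
    have h1 : 2 * (k : ℤ) * i < 2 * k * j := by
      have : (m : ℤ) = 2 * k * j := by rw [hm]; push_cast; ring
      linarith
    exact lt_of_mul_lt_mul_left h1 hkpos.le
  obtain ⟨n, rfl⟩ := Int.eq_ofNat_of_zero_le hi0
  have hnj : n < j := by exact_mod_cast hij
  have hcent : ∀ n' : ℕ, n' < j →
      pr m ε (p + ((k : ℤ) + 2 * k * (n' : ℤ), 1 + (n' : ZMod 2))) ∈ almost m ε k j p := by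
    intro n' hn'
    unfold almost
    exact Finset.mem_image.mpr ⟨n', Finset.mem_range.mpr hn', rfl⟩
  have hdiff : ∀ n' : ℕ, p + (x, y) - (p + ((k : ℤ) + 2 * k * n', 1 + (n' : ZMod 2))) =
      (x - ((k : ℤ) + 2 * k * n'), y - (1 + (n' : ZMod 2))) := by
    intro n'
    rw [add_sub_add_left_eq_sub]
    rfl
  by_cases hr : r = 0
  · by_cases hyn : y = 1 + (n : ZMod 2)
    · refine ⟨_, hcent n hnj, within_of_nrm ?_⟩
      rw [hdiff, hyn, sub_self]
      unfold nrm
      simp only [if_true]
      rw [hir, hr]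
      have : 2 * (k : ℤ) * n + 0 - (k + 2 * k * n) = -k := by ring
      rw [this]
      simp
    · have hyn' : y = (n : ZMod 2) := z2_other y _ hyn
      rcases Nat.eq_zero_or_pos n with hn | hn
      · exfalso
        apply hv
        rw [hir, hr, hyn', hn]
        congr 1
        ext <;> simp
      · obtain ⟨n', rfl⟩ : ∃ n', n = n' + 1 := ⟨n - 1, by omega⟩
        refine ⟨_, hcent n' (by omega), within_of_nrm ?_⟩
        rw [hdiff, hyn']
        have h0 : ((n' + 1 : ℕ) : ZMod 2) - (1 + (n' : ZMod 2)) = 0 := by push_cast; ring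
        rw [h0]
        unfold nrm
        simp only [if_true]
        rw [hir, hr]
        have : 2 * (k : ℤ) * ((n' + 1 : ℕ) : ℤ) + 0 - (k + 2 * k * n') = k := by
          push_cast; ring
        rw [this]
        simp
  · refine ⟨_, hcent n hnj, within_of_nrm ?_⟩
    rw [hdiff]
    unfold nrm
    have h1 : x - ((k : ℤ) + 2 * k * n) = r - k := by rw [hir]; ring
    simp only [h1]
    have h2 : (if y - (1 + (n : ZMod 2)) = 0 then 0 else 1) ≤ 1 := by split_ifs <;> omega
    omega

theorem length_induce' {V : Type} {G : SimpleGraph V} {s : Set V} {u v : V} (w : G.Walk u v)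
    (hw : ∀ x ∈ w.support, x ∈ s) : (w.induce s hw).length = w.length := by
  have h1 := congrArg List.length (Walk.support_induce w hw)
  rw [Walk.length_support, List.length_attachWith, Walk.length_support] at h1
  omega

theorem dom_delete {j : ℕ} (hk : 1 ≤ k) (hm : m = 2 * k * j) (hj : 2 ≤ j)
    (hε : ε = (j : ZMod 2) + 1) (v : ZMod m × ZMod 2) :
    domNumber ((lad m ε).induce {u | u ≠ v}) k ≤ j := by
  classical
  obtain ⟨p, rfl⟩ := pr_surj (ε := ε) v
  refine le_trans (Nat.sInf_le
    ⟨(almost m ε k j p).subtype (· ∈ {u | u ≠ pr m ε p}), ?_, rfl⟩) ?_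
  · rintro ⟨u, hu⟩
    obtain ⟨d, hd, w, hw⟩ := almost_near hk hm p hu
    have hfar := almost_far hk hm hj hε p hd
    have hall : ∀ x ∈ w.support, x ∈ {u | u ≠ pr m ε p} := by
      rintro x hx rfl
      exact hfar ⟨w.takeUntil _ hx, (w.length_takeUntil_le_length hx).trans hw⟩
    refine ⟨⟨d, hall _ w.start_mem_support⟩, ?_, w.induce _ hall, ?_⟩
    · rw [Finset.mem_subtype]
      exact hd
    · rw [length_induce']
      exact hw
  · rw [Finset.card_subtype]
    exact (Finset.card_filter_le _ _).trans (card_almost j p)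

theorem dom_eq {j : ℕ} (hk : 1 ≤ k) (hm : m = 2 * k * j) (hj : 2 ≤ j)
    (hε : ε = (j : ZMod 2) + 1) : domNumber (lad m ε) k = j + 1 := by
  classical
  apply le_antisymm
  · refine le_trans (Nat.sInf_le ⟨insert (pr m ε 0) (almost m ε k j 0), ?_, rfl⟩) ?_
    · intro v
      by_cases hv : v = pr m ε 0
      · exact ⟨v, by rw [hv]; exact Finset.mem_insert_self _ _, Walk.nil, by simp⟩
      · obtain ⟨d, hd, hw⟩ := almost_near hk hm 0 hv
        exact ⟨d, Finset.mem_insert_of_mem hd, hw⟩
    · have h1 := card_almost (m := m) (ε := ε) (k := k) j 0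
      have h2 := Finset.card_insert_le (pr m ε 0) (almost m ε k j 0)
      omega
  · refine le_csInf ⟨_, Finset.univ, fun v => ⟨v, Finset.mem_univ _, Walk.nil, by simp⟩, rfl⟩ ?_
    rintro c ⟨D, hD, rfl⟩
    exact no_small_dom hk hm hj hε hD

theorem minDeg_eq (hk : 1 ≤ k) (hm : 2 * k < m) : minKDegree (lad m ε) k = 4 * k - 1 := by
  have h : ∀ v : ZMod m × ZMod 2, (kNbhd (lad m ε) k v).ncard = 4 * k - 1 := by
    intro v
    have h1 : kNbhd (lad m ε) k v = ((bl m ε k v).erase v : Finset _) := by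
      ext u
      unfold kNbhd
      simp only [Set.mem_ofPred_eq, Finset.coe_erase, Set.mem_sdiff, Finset.mem_coe, mem_bl,
        Set.mem_singleton_iff]
      tauto
    rw [h1, Set.ncard_coe_finset, Finset.card_erase_of_mem, card_bl hk hm]
    rw [mem_bl]
    exact ⟨Walk.nil, by simp⟩
  unfold minKDegree
  have h2 : (Set.range fun v : ZMod m × ZMod 2 => (kNbhd (lad m ε) k v).ncard) =
      {4 * k - 1} := by
    ext c
    simp only [Set.mem_range, Set.mem_singleton_iff, h]
    constructor
    · rintro ⟨-, rfl⟩; rfl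
    · rintro rfl; exact ⟨0, rfl⟩
  rw [h2]
  exact csInf_singleton _

end

/-- For every `k ≥ 2` and every `ℓ ≥ 3` there is a connected `(γ_k, ℓ)`-critical graph whose
order is exactly `(δ_k + 1)(γ_k - 1)`; so the order bound `n ≥ (δ_k + 1)(γ_k - 1) + 1` fails for
every such pair `(k, ℓ)`. -/
theorem result : ∀ k : ℕ, 2 ≤ k → ∀ l : ℕ, 3 ≤ l →
    ∃ (V : Type) (_ : Fintype V) (G : SimpleGraph V),
      G.Connected ∧ IsKCritical G k ∧ domNumber G k = l ∧
      Fintype.card V = (minKDegree G k + 1) * (domNumber G k - 1) := by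
  intro k hk l hl
  obtain ⟨j, rfl⟩ : ∃ j, l = j + 1 := ⟨l - 1, by omega⟩
  have hj : 2 ≤ j := by omega
  have hmne : NeZero (2 * k * j) := ⟨by positivity⟩
  refine ⟨ZMod (2 * k * j) × ZMod 2, inferInstance, lad (2 * k * j) ((j : ZMod 2) + 1),
    lad_connected, ?_, dom_eq (by omega) rfl hj rfl, ?_⟩
  · intro v
    rw [dom_eq (by omega) rfl hj rfl]
    have := dom_delete (k := k) (by omega) rfl hj rfl v
    omega
  · rw [dom_eq (by omega) rfl hj rfl, minDeg_eq (by omega) (by nlinarith), Fintype.card_prod,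
      ZMod.card, ZMod.card, Nat.add_sub_cancel]
    have : 4 * k - 1 + 1 = 4 * k := by omega
    rw [this]
    ring

end Pool.Agent.Results.MP_940262_co.LadderCounterexamples
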